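import Pool.Agent.Q324.LB.Stmts

set_option autoImplicit false

namespace Pool.Agent.Q324.LB

open Pool.Agent.H633R2

theorem pairs_card (S : Finset ℕ) :
    ((S ×ˢ S).filter fun r => r.1 < r.2).card = S.card.choose 2 := by
  have h1 : S.offDiag = ((S ×ˢ S).filter fun r => r.1 < r.2) ∪ ((S ×ˢ S).filter fun r => r.2 < r.1) := by
    ext ⟨u, v⟩
    simp only [Finset.mem_offDiag, Finset.mem_union, Finset.mem_filter, Finset.mem_product]
    constructor
    · rintro ⟨hu, hv, huv⟩
      rcases lt_or_gt_of_ne huv with h | h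
      · exact Or.inl ⟨⟨hu, hv⟩, h⟩
      · exact Or.inr ⟨⟨hu, hv⟩, h⟩
    · rintro (⟨⟨hu, hv⟩, h⟩ | ⟨⟨hu, hv⟩, h⟩)
      · exact ⟨hu, hv, h.ne⟩
      · exact ⟨hu, hv, h.ne'⟩
  have h2 : Disjoint ((S ×ˢ S).filter fun r => r.1 < r.2) ((S ×ˢ S).filter fun r => r.2 < r.1) := by
    rw [Finset.disjoint_filter]
    intro r _ h h'
    exact lt_asymm h h'
  have h3 : ((S ×ˢ S).filter fun r => r.2 < r.1).card = ((S ×ˢ S).filter fun r => r.1 < r.2).card := by
    refine Finset.card_bij (fun r _ => (r.2, r.1)) ?_ ?_ ?_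
    · rintro ⟨u, v⟩ h
      simp only [Finset.mem_filter, Finset.mem_product] at h ⊢
      exact ⟨⟨h.1.2, h.1.1⟩, h.2⟩
    · rintro ⟨u, v⟩ _ ⟨u', v'⟩ _ h
      simp only [Prod.mk.injEq] at h ⊢
      exact ⟨h.2, h.1⟩
    · rintro ⟨u, v⟩ h
      simp only [Finset.mem_filter, Finset.mem_product] at h
      refine ⟨(v, u), ?_, rfl⟩
      simp only [Finset.mem_filter, Finset.mem_product]
      exact ⟨⟨h.1.2, h.1.1⟩, h.2⟩
  have h4 := congrArg Finset.card h1
  rw [Finset.card_union_of_disjoint h2, h3, Finset.offDiag_card] at h4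
  rw [Nat.choose_two_right, Nat.mul_sub, mul_one, h4]
  omega

theorem adM_of_adj {M : List (List Bool)} {i j : Fin M.length} (h : (graphOf M).Adj i j) :
    adM M i j = true := by
  obtain ⟨h1, h2⟩ := h
  have h3 : (i : ℕ) ≠ j := fun h => h1 (Fin.ext h)
  simp [adM, h3, h2]

theorem adj_of_adM {M : List (List Bool)} {i j : Fin M.length} (h : adM M i j = true) :
    (graphOf M).Adj i j := by
  simp only [adM, Bool.and_eq_true, Bool.not_eq_true', decide_eq_false_iff_not, Bool.or_eq_true] at h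
  exact ⟨fun h' => h.1 (congrArg Fin.val h'), h.2⟩

theorem taskClq (hK : TaskK2) : TaskClq := by
  intro M k hk
  rw [hK M.length k hk]
  constructor
  · rintro ⟨S, hS⟩
    refine ⟨S.map Fin.valEmbedding, ?_, ?_, ?_⟩
    · intro u hu
      simp only [Finset.mem_map, Fin.valEmbedding_apply] at hu
      obtain ⟨i, _, rfl⟩ := hu
      exact Finset.mem_range.2 i.2
    · rw [Finset.card_map]
      exact hS.card_eq
    · have hc : (S.map Fin.valEmbedding).card = k := by
        rw [Finset.card_map]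
        exact hS.card_eq
      rw [← hc, ← pairs_card]
      unfold ee
      refine Finset.card_le_card ?_
      rintro ⟨u, v⟩ h
      simp only [Finset.mem_filter, Finset.mem_product, Finset.mem_map, Fin.valEmbedding_apply] at h ⊢
      obtain ⟨⟨⟨i, hi, rfl⟩, ⟨j, hj, rfl⟩⟩, hlt⟩ := h
      refine ⟨⟨⟨i, hi, rfl⟩, ⟨j, hj, rfl⟩⟩, hlt, ?_⟩
      have hij : i ≠ j := fun h => by rw [h] at hlt; exact lt_irrefl _ hlt
      exact adM_of_adj (hS.isClique hi hj hij)
  · rintro ⟨S, hS, hc, he⟩
    have hlt : ∀ m ∈ S, m < M.length := fun m hm => Finset.mem_range.1 (hS hm)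
    have hsub : ((S ×ˢ S).filter fun r => r.1 < r.2 ∧ adM M r.1 r.2 = true) ⊆
        (S ×ˢ S).filter fun r => r.1 < r.2 := by
      intro r hr
      simp only [Finset.mem_filter] at hr ⊢
      exact ⟨hr.1, hr.2.1⟩
    have heq := Finset.eq_of_subset_of_card_le hsub (by
      rw [pairs_card, hc]
      exact he)
    have hall : ∀ u ∈ S, ∀ v ∈ S, u < v → adM M u v = true := by
      intro u hu v hv huv
      have : (u, v) ∈ (S ×ˢ S).filter fun r => r.1 < r.2 := by
        simp only [Finset.mem_filter, Finset.mem_product]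
        exact ⟨⟨hu, hv⟩, huv⟩
      rw [← heq] at this
      simp only [Finset.mem_filter] at this
      exact this.2.2
    refine ⟨S.attachFin hlt, ?_, ?_⟩
    · intro i hi j hj hij
      have hi' : (i : ℕ) ∈ S := Finset.mem_attachFin hlt |>.1 hi
      have hj' : (j : ℕ) ∈ S := Finset.mem_attachFin hlt |>.1 hj
      have hne : (i : ℕ) ≠ j := fun h => hij (Fin.ext h)
      rcases lt_or_gt_of_ne hne with h | h
      · exact adj_of_adM (hall i hi' j hj' h)
      · exact (adj_of_adM (hall j hj' i hi' h)).symm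
    · rw [Finset.card_attachFin]
      exact hc

end Pool.Agent.Q324.LB
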