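import Pool.Agent.Q324.LB.Stmts

set_option autoImplicit false

namespace Pool.Agent.Q324.LB

theorem taskCols : TaskCols := by
  intro ρ _ F g N p c m B hNm hB
  constructor
  · rintro ⟨T, hTm, hTc, hTB⟩
    have h1 : ∀ u ∈ T, u < N + p := by
      intro u hu
      by_contra hcon
      have h2 : (F.filter fun r => ∃ u ∈ T,
          (if u < N then !(g r u) else decide (u < N + p)) = false) = F := by
        refine Finset.filter_true_of_mem fun r _ => ⟨u, hu, ?_⟩
        rw [if_neg (by omega)]
        simpa using hcon
      rw [h2] at hTB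
      omega
    have h3 : c ≤ (T ∩ Finset.range N).card := by
      have h4 : T \ Finset.range N ⊆ Finset.Ico N (N + p) := by
        intro u hu
        rw [Finset.mem_sdiff, Finset.mem_range] at hu
        have := h1 u hu.1
        rw [Finset.mem_Ico]
        omega
      have h5 := Finset.card_le_card h4
      rw [Nat.card_Ico] at h5
      have h6 := Finset.card_sdiff_add_card_inter T (Finset.range N)
      omega
    obtain ⟨T', hT', hc⟩ := Finset.exists_subset_card_eq h3
    refine ⟨T', fun u hu => (Finset.mem_inter.1 (hT' hu)).2, hc, le_trans (Finset.card_le_card ?_) hTB⟩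
    intro r hr
    rw [Finset.mem_filter] at hr ⊢
    obtain ⟨hrF, u, hu, hg⟩ := hr
    have hu' := Finset.mem_inter.1 (hT' hu)
    refine ⟨hrF, u, hu'.1, ?_⟩
    rw [if_pos (Finset.mem_range.1 hu'.2), hg]
    rfl
  · rintro ⟨T', hT', hc, hTB⟩
    have hdis : Disjoint T' (Finset.Ico N (N + p)) := by
      rw [Finset.disjoint_left]
      intro u hu hu'
      have h1 := Finset.mem_range.1 (hT' hu)
      have h2 := Finset.mem_Ico.1 hu'
      omega
    refine ⟨T' ∪ Finset.Ico N (N + p), ?_, ?_, le_trans (Finset.card_le_card ?_) hTB⟩
    · intro u hu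
      rw [Finset.mem_range]
      rcases Finset.mem_union.1 hu with h | h
      · have := Finset.mem_range.1 (hT' h)
        omega
      · have := Finset.mem_Ico.1 h
        omega
    · rw [Finset.card_union_of_disjoint hdis, Nat.card_Ico]
      omega
    · intro r hr
      rw [Finset.mem_filter] at hr ⊢
      obtain ⟨hrF, u, hu, hg⟩ := hr
      refine ⟨hrF, ?_⟩
      rcases Finset.mem_union.1 hu with h | h
      · refine ⟨u, h, ?_⟩
        rw [if_pos (Finset.mem_range.1 (hT' h))] at hg
        simpa using hg
      · have h2 := Finset.mem_Ico.1 h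
        rw [if_neg (by omega)] at hg
        simp at hg
        omega

end Pool.Agent.Q324.LB
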