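import Pool.Agent.Q324.LB.Stmts

set_option autoImplicit false

namespace Pool.Agent.Q324.LB

open Pool.Agent.H633R2

private theorem inner_card (N v : ℕ) (a : ℕ → ℕ → Bool) :
    ((List.range N).filter fun w => decide (v < w) && a v w).length =
      ∑ w ∈ Finset.range N, if v < w ∧ a v w = true then 1 else 0 := by
  rw [← Finset.card_filter]
  have h : (fun w => decide (v < w) && a v w) = fun w => decide (v < w ∧ a v w = true) := by
    funext w
    simp
  rw [h]
  rfl

theorem taskE : TaskE := by
  intro M
  unfold E ee
  rw [Finset.card_filter, Finset.sum_product, List.length_flatMap]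
  have h : ∀ v, ((List.range M.length).filter fun w => decide (v < w) && adM M v w).length =
      ∑ w ∈ Finset.range M.length, if v < w ∧ adM M v w = true then 1 else 0 :=
    fun v => inner_card M.length v (adM M)
  simp only [h]
  rfl

end Pool.Agent.Q324.LB
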