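import Pool.Agent.Q324.LB.Stmts

set_option autoImplicit false

namespace Pool.Agent.Q324.LB

/-- edges which meet `T` and edges in the complement of `T` -/
theorem TaskHigh_proof : TaskHigh := by
  intro a N T hT
  classical
  have h1 : (((Finset.range N) ×ˢ (Finset.range N)).filter fun r =>
      ∃ u ∈ T, zer a true r.1 r.2 u = true) =
      (((Finset.range N) ×ˢ (Finset.range N)).filter fun r => r.1 < r.2 ∧ a r.1 r.2 = true).filter
        (fun r => r.1 ∈ T ∨ r.2 ∈ T) := by
    ext ⟨v, w⟩
    simp only [Finset.mem_filter, Finset.mem_product, zer, Bool.not_true, Bool.false_and,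
      Bool.or_false, Bool.and_eq_true, Bool.or_eq_true, decide_eq_true_eq]
    constructor
    · rintro ⟨h, u, hu, h2, h3, h4⟩
      refine ⟨⟨h, h2, h3⟩, ?_⟩
      rcases h4 with rfl | rfl
      · exact Or.inl hu
      · exact Or.inr hu
    · rintro ⟨⟨h, h2, h3⟩, h4 | h4⟩
      · exact ⟨h, v, h4, h2, h3, Or.inl rfl⟩
      · exact ⟨h, w, h4, h2, h3, Or.inr rfl⟩
  have h2 : (((Finset.range N \ T) ×ˢ (Finset.range N \ T)).filter fun r =>
      r.1 < r.2 ∧ a r.1 r.2 = true) =
      (((Finset.range N) ×ˢ (Finset.range N)).filter fun r => r.1 < r.2 ∧ a r.1 r.2 = true).filter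
        (fun r => ¬ (r.1 ∈ T ∨ r.2 ∈ T)) := by
    ext ⟨v, w⟩
    simp only [Finset.mem_filter, Finset.mem_product, Finset.mem_sdiff, not_or]
    tauto
  unfold ee
  rw [h1, h2]
  exact Finset.card_filter_add_card_filter_not _

end Pool.Agent.Q324.LB
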