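import Pool.Agent.Q324.LB.Stmts

set_option autoImplicit false

namespace Pool.Agent.Q324.LB

private lemma sum_range_list (f : ℕ → ℕ) (n : ℕ) : ((List.range n).map f).sum = ∑ i ∈ Finset.range n, f i := by
  induction n with
  | zero => simp
  | succ n ih => rw [List.range_succ, List.map_append, List.sum_append, ih, Finset.sum_range_succ]; simp

theorem taskK2 : TaskK2 := by
  intro N k hk
  unfold K2
  rw [List.length_flatMap]
  have h1 : ∀ v, ((List.range N).filter fun w => decide (v < w) && decide (w < k)).length = k - 1 - v := by
    intro v
    have h2 : ((List.range N).filter fun w => decide (v < w) && decide (w < k)).length =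
        ((Finset.range N).filter fun w => v < w ∧ w < k).card := by
      rw [← List.toFinset_card_of_nodup ((List.nodup_range).filter _)]
      congr 1
      ext w
      simp
    rw [h2]
    have h3 : ((Finset.range N).filter fun w => v < w ∧ w < k) = Finset.Ioo v k := by
      ext w
      simp only [Finset.mem_filter, Finset.mem_range, Finset.mem_Ioo]
      omega
    rw [h3, Nat.card_Ioo]
    omega
  simp only [h1]
  rw [sum_range_list]
  have h4 : ∑ i ∈ Finset.range N, (k - 1 - i) = ∑ i ∈ Finset.range k, (k - 1 - i) := by
    symm
    apply Finset.sum_subset (Finset.range_mono hk)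
    intro i _ hi
    simp only [Finset.mem_range, not_lt] at hi
    omega
  rw [h4, Finset.sum_range_reflect (fun i => i) k, Finset.sum_range_id, Nat.choose_two_right]

end Pool.Agent.Q324.LB
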