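import Pool.Agent.Q324.LB.Stmts

set_option autoImplicit false

namespace Pool.Agent.Q324.LB

open Finset

private theorem hex (a : ℕ → ℕ → Bool) (T : Finset ℕ) (v w : ℕ) :
    (∃ u ∈ T, zer a false v w u = true) ↔
      ((v < w ∧ a v w = true ∧ (v ∈ T ∨ w ∈ T)) ∨ (v ≠ w ∧ a v w = false ∧ v ∈ T)) := by
  unfold zer
  simp only [Bool.or_eq_true, Bool.and_eq_true, decide_eq_true_eq, Bool.not_eq_true',
    decide_eq_false_iff_not, Bool.not_false, true_and]
  constructor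
  · rintro ⟨u, hu, h | h⟩
    · obtain ⟨h1, h2, h3 | h3⟩ := h
      · exact Or.inl ⟨h1, h2, Or.inl (h3 ▸ hu)⟩
      · exact Or.inl ⟨h1, h2, Or.inr (h3 ▸ hu)⟩
    · obtain ⟨h1, h2, h3⟩ := h
      exact Or.inr ⟨h1, h2, h3 ▸ hu⟩
  · rintro (⟨h1, h2, h3 | h3⟩ | ⟨h1, h2, h3⟩)
    · exact ⟨v, h3, Or.inl ⟨h1, h2, Or.inl rfl⟩⟩
    · exact ⟨w, h3, Or.inl ⟨h1, h2, Or.inr rfl⟩⟩
    · exact ⟨v, h3, Or.inr ⟨h1, h2, rfl⟩⟩

theorem taskLow : TaskLow := by
  intro a N T ha hT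
  classical
  have h1 : ee a T = ∑ r ∈ range N ×ˢ range N,
      if (r.1 < r.2 ∧ a r.1 r.2 = true ∧ r.1 ∈ T ∧ r.2 ∈ T) then 1 else 0 := by
    unfold ee
    rw [← card_filter]
    congr 1
    ext ⟨v, w⟩
    simp only [mem_filter, mem_product]
    constructor
    · rintro ⟨⟨h1, h2⟩, h3, h4⟩
      exact ⟨⟨hT h1, hT h2⟩, h3, h4, h1, h2⟩
    · rintro ⟨-, h3, h4, h1, h2⟩
      exact ⟨⟨h1, h2⟩, h3, h4⟩
  have h2 : T.card * (N - 1) = ∑ r ∈ range N ×ˢ range N,
      if (r.1 ∈ T ∧ r.1 ≠ r.2) then 1 else 0 := by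
    rw [sum_product]
    have h : ∀ v ∈ range N, (∑ w ∈ range N, if ((v, w).1 ∈ T ∧ (v, w).1 ≠ (v, w).2) then 1 else 0) =
        if v ∈ T then N - 1 else 0 := by
      intro v hv
      by_cases hvT : v ∈ T
      · simp only [hvT, true_and, if_true]
        rw [← card_filter]
        have : (range N).filter (fun w => v ≠ w) = (range N).erase v := by
          ext w
          simp only [mem_filter, mem_erase, ne_eq]
          constructor
          · rintro ⟨h1, h2⟩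
            exact ⟨fun h => h2 h.symm, h1⟩
          · rintro ⟨h1, h2⟩
            exact ⟨h2, fun h => h1 h.symm⟩
        rw [this, card_erase_of_mem hv, card_range]
      · simp [hvT]
    rw [sum_congr rfl h, ← sum_filter, sum_const, smul_eq_mul]
    congr 2
    ext v
    simp only [mem_filter]
    exact ⟨fun h => ⟨hT h, h⟩, fun h => h.2⟩
  have h3 : (∑ r ∈ range N ×ˢ range N, if (r.1 < r.2 ∧ a r.1 r.2 = true ∧ r.2 ∈ T) then 1 else 0) =
      ∑ r ∈ range N ×ˢ range N, if (r.2 < r.1 ∧ a r.1 r.2 = true ∧ r.1 ∈ T) then 1 else 0 := by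
    rw [sum_product, sum_product_right]
    refine sum_congr rfl fun v _ => sum_congr rfl fun w _ => ?_
    simp only
    rw [ha v w]
  rw [card_filter, h1, h2, ← sum_add_distrib]
  have h4 : ∀ r ∈ range N ×ˢ range N,
      ((if (∃ u ∈ T, zer a false r.1 r.2 u = true) then 1 else 0) +
        (if (r.1 < r.2 ∧ a r.1 r.2 = true ∧ r.1 ∈ T ∧ r.2 ∈ T) then 1 else 0) : ℕ) =
      (if (r.1 < r.2 ∧ a r.1 r.2 = true ∧ r.1 ∈ T) then 1 else 0) +
        (if (r.1 < r.2 ∧ a r.1 r.2 = true ∧ r.2 ∈ T) then 1 else 0) +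
        (if (r.1 ≠ r.2 ∧ a r.1 r.2 = false ∧ r.1 ∈ T) then 1 else 0) := by
    rintro ⟨v, w⟩ -
    simp only [hex]
    by_cases c1 : v < w <;> by_cases c2 : v ∈ T <;> by_cases c3 : w ∈ T <;>
      by_cases c4 : v = w <;> cases c5 : a v w <;> simp [c1, c2, c3, c4] <;> omega
  rw [sum_congr rfl h4, sum_add_distrib, sum_add_distrib, h3, ← sum_add_distrib, ← sum_add_distrib]
  refine sum_congr rfl ?_
  rintro ⟨v, w⟩ -
  simp only
  by_cases c1 : v < w <;> by_cases c2 : v ∈ T <;> by_cases c3 : w < v <;>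
    by_cases c4 : v = w <;> cases c5 : a v w <;> simp [c1, c2, c3, c4] <;> omega

end Pool.Agent.Q324.LB
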