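import Pool.Agent.Q324.LB.Stmts

set_option autoImplicit false

namespace Pool.Agent.Q324.LB

open Pool.Agent.H633R2

private theorem aux (L c zz B : ℕ) (en : ℕ → ℕ → Bool) :
    (∃ Y : Fin L → Fin c → Bool, {i | ∃ j, Y i j ≠ en i j}.ncard ≤ B ∧
      zz ≤ {j | ∀ i, Y i j = true}.ncard) ↔
    ∃ T ⊆ Finset.range c, zz ≤ T.card ∧
      (Finset.univ.filter fun i : Fin L => ∃ u ∈ T, en i u = false).card ≤ B := by
  classical
  constructor
  · rintro ⟨Y, h1, h2⟩
    refine ⟨(Finset.univ.filter fun j : Fin c => ∀ i, Y i j = true).map Fin.valEmbedding, ?_, ?_, ?_⟩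
    · intro u hu
      rw [Finset.mem_map] at hu
      obtain ⟨j, -, rfl⟩ := hu
      exact Finset.mem_range.2 j.2
    · rw [Finset.card_map]
      refine h2.trans (le_of_eq ?_)
      rw [← Set.ncard_coe_finset]
      congr 1
      ext j
      simp
    · refine le_trans ?_ h1
      rw [← Set.ncard_coe_finset]
      refine Set.ncard_le_ncard ?_ (Set.toFinite _)
      intro i hi
      rw [Finset.mem_coe, Finset.mem_filter] at hi
      obtain ⟨-, u, hu, hiu⟩ := hi
      rw [Finset.mem_map] at hu
      obtain ⟨j, hj, rfl⟩ := hu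
      rw [Finset.mem_filter] at hj
      refine ⟨j, ?_⟩
      rw [hj.2 i]
      intro h
      have h3 : en i j = false := hiu
      rw [h3] at h
      exact Bool.noConfusion h
  · rintro ⟨T, hT, h1, h2⟩
    refine ⟨fun i j => if ∃ u ∈ T, en i u = false then true else en i j, ?_, ?_⟩
    · refine le_trans ?_ h2
      rw [← Set.ncard_coe_finset]
      refine Set.ncard_le_ncard ?_ (Set.toFinite _)
      rintro i ⟨j, hj⟩
      rw [Finset.mem_coe, Finset.mem_filter]
      refine ⟨Finset.mem_univ _, ?_⟩
      by_contra hc
      have hj' : (if ∃ u ∈ T, en i u = false then true else en i j) ≠ en i j := hj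
      rw [if_neg hc] at hj'
      exact hj' rfl
    · refine h1.trans ?_
      have h3 : T.card = {j : Fin c | (j : ℕ) ∈ T}.ncard := by
        have h4 : (T : Set ℕ) = Fin.val '' {j : Fin c | (j : ℕ) ∈ T} := by
          ext u
          constructor
          · intro hu
            exact ⟨⟨u, Finset.mem_range.1 (hT hu)⟩, hu, rfl⟩
          · rintro ⟨j, hj, rfl⟩
            exact hj
        rw [← Set.ncard_coe_finset, h4, Set.ncard_image_of_injective _ Fin.val_injective]
      rw [h3]
      refine Set.ncard_le_ncard ?_ (Set.toFinite _)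
      intro j hj i
      show (if ∃ u ∈ T, en i u = false then true else en i j) = true
      split_ifs with hc
      · rfl
      · by_contra hne
        exact hc ⟨j, hj, by simpa using hne⟩

theorem taskOld : TaskOld := by
  classical
  intro ρ _ Rl m cl z B hnd hne
  set X : List (List Bool) := Rl.map (fun r => (List.range m).map (cl r)) with hX
  have hlen : X.length = Rl.length := by rw [hX, List.length_map]
  have hcols : cols X = m := by
    obtain ⟨a, l, rfl⟩ := List.exists_cons_of_ne_nil hne
    simp [hX, cols]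
  have hentry : ∀ (i : Fin X.length) (u : ℕ), u < m →
      entry X i u = cl (Rl.get (Fin.cast hlen i)) u := by
    intro i u hu
    have hi : (i : ℕ) < Rl.length := hlen ▸ i.2
    simp [entry, hX, hi, hu]
  have h1 : Old z (X, B) ↔ _ := aux X.length (cols X) (z (cols X)) B (entry X)
  rw [h1, hcols]
  refine exists_congr fun T => and_congr_right fun hT => and_congr_right fun _ => ?_
  have h2 : (Finset.univ.filter fun i : Fin X.length => ∃ u ∈ T, entry X i u = false).card =
      (Rl.toFinset.filter fun r => ∃ u ∈ T, cl r u = false).card := by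
    refine Finset.card_bij (fun i _ => Rl.get (Fin.cast hlen i)) ?_ ?_ ?_
    · intro i hi
      rw [Finset.mem_filter] at hi ⊢
      obtain ⟨-, u, hu, hiu⟩ := hi
      refine ⟨List.mem_toFinset.2 (List.get_mem _ _), u, hu, ?_⟩
      rw [← hentry i u (Finset.mem_range.1 (hT hu))]
      exact hiu
    · intro i _ i' _ h
      have h3 := List.nodup_iff_injective_get.1 hnd h
      exact Fin.cast_injective _ h3
    · intro r hr
      rw [Finset.mem_filter, List.mem_toFinset] at hr
      obtain ⟨hr1, u, hu, hru⟩ := hr
      obtain ⟨i, rfl⟩ := List.mem_iff_get.1 hr1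
      refine ⟨Fin.cast hlen.symm i, ?_, rfl⟩
      rw [Finset.mem_filter]
      refine ⟨Finset.mem_univ _, u, hu, ?_⟩
      rw [hentry _ u (Finset.mem_range.1 (hT hu))]
      exact hru
  rw [h2]

end Pool.Agent.Q324.LB
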