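import Pool.Agent.Q324.LB.Stmts

set_option autoImplicit false

namespace Pool.Agent.Q324.LB

open Pool.Agent.H633R2

theorem taskZ_aux (z : ℕ → ℕ) (m j : ℕ) (hm : 0 < m) (hj : j ≤ m) :
    Old z ([(List.range m).map fun u => decide (u < j)], 0) ↔ z m ≤ j := by
  have hc : cols [(List.range m).map fun u => decide (u < j)] = m := by
    simp [cols]
  unfold Old
  have hent : ∀ (i : Fin 1) (u : Fin (cols [(List.range m).map fun u => decide (u < j)])),
      entry [(List.range m).map fun u => decide (u < j)] i u = decide (u.1 < j) := by
    intro i u
    have hi : (i : ℕ) = 0 := by omega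
    have hu : u.1 < m := lt_of_lt_of_eq u.2 hc
    rw [hi]
    simp [entry, List.getD_eq_getElem?_getD, hu]
  have hcard : {u : Fin (cols [(List.range m).map fun u => decide (u < j)]) |
      ∀ _ : Fin 1, decide (u.1 < j) = true}.ncard = j := by
    have h1 : {u : Fin (cols [(List.range m).map fun u => decide (u < j)]) |
        ∀ _ : Fin 1, decide (u.1 < j) = true} =
        ((Finset.univ.filter fun u : Fin (cols [(List.range m).map fun u => decide (u < j)]) =>
          u.1 < j : Finset _) : Set _) := by
      ext u; simp
    rw [h1, Set.ncard_coe_finset]
    have h2 : (Finset.univ.filter fun u : Fin (cols [(List.range m).map fun u => decide (u < j)]) =>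
        u.1 < j).card = ((Finset.range j).card) := by
      refine Finset.card_bij (fun u _ => u.1) ?_ ?_ ?_
      · intro u hu
        simpa using hu
      · intro u _ v _ h
        exact Fin.ext h
      · intro u hu
        have hu' : u < j := by simpa using hu
        refine ⟨⟨u, by omega⟩, by simpa using hu', rfl⟩
    rw [h2, Finset.card_range]
  constructor
  · rintro ⟨Y, h1, h2⟩
    have h3 : {i | ∃ j', Y i j' ≠ entry [(List.range m).map fun u => decide (u < j)] i j'} = ∅ := by
      have := Nat.le_zero.mp h1
      rwa [Set.ncard_eq_zero (Set.toFinite _)] at this
    have h4 : ∀ i u, Y i u = decide (u.1 < j) := by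
      intro i u
      by_contra hne
      have : i ∈ ({i | ∃ j', Y i j' ≠ entry [(List.range m).map fun u => decide (u < j)] i j'} :
          Set _) := ⟨u, by rw [hent i u]; exact hne⟩
      rw [h3] at this
      exact this
    have h5 : {u | ∀ i, Y i u = true} =
        {u : Fin (cols [(List.range m).map fun u => decide (u < j)]) |
          ∀ _ : Fin 1, decide (u.1 < j) = true} := by
      ext u
      simp only [Set.mem_setOf_eq]
      constructor
      · intro h i; rw [← h4 i u]; exact h i
      · intro h i; rw [h4 i u]; exact h i
    have h6 : z (cols [(List.range m).map fun u => decide (u < j)]) ≤ j := by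
      refine le_trans h2 (le_of_eq ?_)
      exact (congrArg Set.ncard h5).trans hcard
    rwa [hc] at h6
  · intro h
    refine ⟨fun _ u => decide (u.1 < j), ?_, ?_⟩
    · have : {i | ∃ j', decide ((j' : Fin (cols [(List.range m).map fun u => decide (u < j)])).1 < j) ≠
          entry [(List.range m).map fun u => decide (u < j)] (i : Fin 1) j'} = ∅ := by
        ext i
        simp only [Set.mem_setOf_eq, Set.mem_empty_iff_false, iff_false, not_exists, ne_eq, not_not]
        intro u
        rw [hent i u]
      refine le_of_eq ?_
      refine (congrArg Set.ncard this).trans ?_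
      simp
    · refine le_trans ?_ (le_of_eq hcard.symm)
      change z (cols [(List.range m).map fun u => decide (u < j)]) ≤ j
      rw [hc]
      exact h

theorem taskZ : TaskZ := by
  intro z d hz hd m
  rcases Nat.eq_zero_or_pos m with rfl | hm
  · have := hz 0
    simp [zval]
    omega
  have h1 : ∀ j ∈ List.range m,
      (!(d ([(List.range m).map fun u => decide (u < j)], 0))) = decide (j < z m) := by
    intro j hj
    have hj' : j < m := List.mem_range.mp hj
    have h2 := hd ([(List.range m).map fun u => decide (u < j)], 0) (by
      refine ⟨by simp, ?_, by simp⟩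
      intro r hr
      simp only [List.mem_singleton] at hr
      subst hr
      simp [cols])
    rw [taskZ_aux z m j hm hj'.le] at h2
    by_cases h3 : z m ≤ j
    · rw [h2.mpr h3]
      simp [h3]
    · have h4 : d ([(List.range m).map fun u => decide (u < j)], 0) = false := by
        rw [← Bool.not_eq_true, h2]
        exact h3
      rw [h4]
      simp
      omega
  rw [zval, List.filter_congr h1]
  have h5 : ((List.range m).filter fun j => decide (j < z m)).length =
      ((Finset.range m).filter fun j => j < z m).card := by
    rw [Finset.card_def]
    simp [Finset.filter, Finset.range, Multiset.range]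
  rw [h5]
  have h6 : (Finset.range m).filter (fun j => j < z m) = Finset.range (z m) := by
    ext j
    have := hz m
    simp only [Finset.mem_filter, Finset.mem_range]
    omega
  rw [h6, Finset.card_range]

end Pool.Agent.Q324.LB
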