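import Pool.Agent.Q324.LB.PolyA
import Pool.Agent.Q324.LB.TaskOld
import Pool.Agent.Q324.LB.TaskCols
import Pool.Agent.Q324.LB.TaskLow
import Pool.Agent.Q324.LB.TaskHigh
import Pool.Agent.Q324.LB.TaskClq
import Pool.Agent.Q324.LB.TaskE
import Pool.Agent.Q324.LB.TaskZ
import Pool.Agent.Q324.LB.TaskK2

/-!
# Unanimity lobbying: assembly
-/

set_option autoImplicit false

namespace Pool.Agent.Q324.LB

open Pool.Agent.NPC Pool.Agent.NPC.H633 Pool.Agent.H633R2 Pool.Agent.Q322

/-- the rows of the matrix -/
def rl (N : ℕ) : List (ℕ × ℕ) :=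
  (List.range N).flatMap fun v => (List.range N).map fun w => (v, w)

theorem rl_nodup (N : ℕ) : (rl N).Nodup := by
  unfold rl
  have h : (List.range N).flatMap (fun v => (List.range N).map fun w => (v, w)) =
      (List.range N) ×ˢ (List.range N) := rfl
  rw [h]
  exact List.Nodup.product List.nodup_range List.nodup_range

theorem rl_toFinset (N : ℕ) : (rl N).toFinset = Finset.range N ×ˢ Finset.range N := by
  ext ⟨a, b⟩
  simp [rl]

theorem matX_eq (M : List (List Bool)) (hi : Bool) (p m : ℕ) :
    matX M hi p m = (rl M.length).map fun r => (List.range m).map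
      (cell (adM M) hi M.length p r.1 r.2) := by
  unfold matX rl
  rw [List.map_flatMap]
  simp only [List.map_map]
  rfl

theorem adM_symm (M : List (List Bool)) (u v : ℕ) : adM M u v = adM M v u := adjB_symm M u v

theorem matX_length (M : List (List Bool)) (hi : Bool) (p m : ℕ) :
    (matX M hi p m).length = M.length * M.length := by
  rw [matX_eq]
  simp [rl, List.length_flatMap]

theorem matX_cols (M : List (List Bool)) (hi : Bool) (p m : ℕ) (hM : 0 < M.length) :
    cols (matX M hi p m) = m := by
  rw [matX_eq]
  have h : rl M.length ≠ [] := by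
    intro h
    have := congrArg List.length h
    simp [rl, List.length_flatMap] at this
    subst this
    simp at hM
  obtain ⟨r, l, hl⟩ := List.exists_cons_of_ne_nil h
  rw [hl]
  simp [cols]

theorem matX_valid (M : List (List Bool)) (hi : Bool) (p m B : ℕ) (hM : 0 < M.length)
    (hB : B ≤ M.length * M.length) : Valid (matX M hi p m, B) := by
  refine ⟨?_, ?_, ?_⟩
  · simp only [matX_length]
    positivity
  · intro r hr
    simp only [matX_cols M hi p m hM]
    simp only [matX_eq, List.mem_map] at hr
    obtain ⟨a, _, rfl⟩ := hr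
    simp
  · simpa only [matX_length] using hB

/-- `Old` for the matrix in terms of vertex sets. -/
theorem old_matX (z : ℕ → ℕ) (M : List (List Bool)) (hi : Bool) (p m c B : ℕ) (hM : 0 < M.length)
    (hz : z m = c + p) (hp : M.length + p ≤ m) (hB : B < M.length * M.length) :
    Old z (matX M hi p m, B) ↔ ∃ T ⊆ Finset.range M.length, T.card = c ∧
      ((Finset.range M.length ×ˢ Finset.range M.length).filter fun r =>
        ∃ u ∈ T, zer (adM M) hi r.1 r.2 u = true).card ≤ B := by
  have h0 : rl M.length ≠ [] := by
    intro h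
    have := congrArg List.length h
    simp [rl, List.length_flatMap] at this
    subst this
    simp at hM
  have h1 := taskOld (ℕ × ℕ) (rl M.length) m
    (fun r => cell (adM M) hi M.length p r.1 r.2) z B (rl_nodup _) h0
  rw [matX_eq]
  refine h1.trans ?_
  rw [rl_toFinset, hz]
  have h2 := taskCols (ℕ × ℕ) (Finset.range M.length ×ˢ Finset.range M.length)
    (fun r u => zer (adM M) hi r.1 r.2 u) M.length p c m B hp (by simpa using hB)
  exact h2

theorem K2_le (N k : ℕ) (hk : k ≤ N) : K2 N k ≤ k * (N - 1) := by
  rw [taskK2 N k hk, Nat.choose_two_right]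
  calc k * (k - 1) / 2 ≤ k * (k - 1) := Nat.div_le_self _ _
    _ ≤ k * (N - 1) := Nat.mul_le_mul_left _ (by omega)

theorem ee_lt (a : ℕ → ℕ → Bool) (N : ℕ) (hN : 0 < N) : ee a (Finset.range N) < N * N := by
  have h : ee a (Finset.range N) < (Finset.range N ×ˢ Finset.range N).card := by
    unfold ee
    refine Finset.card_lt_card ?_
    rw [Finset.ssubset_iff_of_subset (Finset.filter_subset _ _)]
    exact ⟨(0, 0), by simp [hN], by simp⟩
  simpa using h

theorem low_case (z : ℕ → ℕ) (M : List (List Bool)) (k m : ℕ) (hk : 0 < k) (hkN : k ≤ M.length)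
    (hz : k ≤ z m) (hm : M.length ≤ m - z m) :
    Old z (matX M false (z m - k) m, k * (M.length - 1) - K2 M.length k) ↔ HasClique (M, k) := by
  have hN : 0 < M.length := by omega
  have hK := K2_le M.length k hkN
  have hB : k * (M.length - 1) - K2 M.length k < M.length * M.length := by
    have h1 : k * (M.length - 1) ≤ M.length * (M.length - 1) := Nat.mul_le_mul_right _ hkN
    have h2 : M.length * (M.length - 1) < M.length * M.length :=
      Nat.mul_lt_mul_of_pos_left (by omega) hN
    omega
  rw [old_matX z M false (z m - k) m k _ hN (by omega) (by omega) hB, taskClq taskK2 M k hkN]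
  refine exists_congr fun S => ⟨?_, ?_⟩
  · rintro ⟨h1, h2, h3⟩
    refine ⟨h1, h2, ?_⟩
    have h4 := taskLow (adM M) M.length S (adM_symm M) h1
    rw [h2] at h4
    omega
  · rintro ⟨h1, h2, h3⟩
    refine ⟨h1, h2, ?_⟩
    have h4 := taskLow (adM M) M.length S (adM_symm M) h1
    rw [h2] at h4
    omega

theorem high_case (z : ℕ → ℕ) (M : List (List Bool)) (k m : ℕ) (hk : 0 < k) (hkN : k ≤ M.length)
    (hz : M.length ≤ z m) (hm : k ≤ m - z m) (hE : K2 M.length k ≤ E M) :
    Old z (matX M true (z m - (M.length - k)) m, E M - K2 M.length k) ↔ HasClique (M, k) := by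
  have hN : 0 < M.length := by omega
  have hEE := taskE M
  have hB : E M - K2 M.length k < M.length * M.length := by
    have h1 := ee_lt (adM M) M.length hN
    omega
  rw [old_matX z M true (z m - (M.length - k)) m (M.length - k) _ hN (by omega) (by omega) hB,
    taskClq taskK2 M k hkN]
  constructor
  · rintro ⟨T, h1, h2, h3⟩
    refine ⟨Finset.range M.length \ T, Finset.sdiff_subset, ?_, ?_⟩
    · rw [Finset.card_sdiff_of_subset h1, h2, Finset.card_range]
      omega
    · have h4 := TaskHigh_proof (adM M) M.length T h1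
      omega
  · rintro ⟨S, h1, h2, h3⟩
    refine ⟨Finset.range M.length \ S, Finset.sdiff_subset, ?_, ?_⟩
    · rw [Finset.card_sdiff_of_subset h1, h2, Finset.card_range]
    · have h4 := TaskHigh_proof (adM M) M.length (Finset.range M.length \ S) Finset.sdiff_subset
      rw [Finset.sdiff_sdiff_eq_self h1] at h4
      omega

theorem alg_correct (z : ℕ → ℕ) (d : Inst → Bool)
    (hd : ∀ x, Valid x → (d x = true ↔ Old z x)) (M : List (List Bool)) (k m : ℕ)
    (hm : 2 * M.length ≤ m) (h1 : k ≤ z m) (h2 : k ≤ m - z m) :
    alg d M k m (z m) = true ↔ HasClique (M, k) := by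
  unfold alg
  by_cases hk : k = 0
  · subst hk
    simp only [if_true, true_iff]
    exact ⟨∅, by simp [SimpleGraph.isNClique_iff]⟩
  rw [if_neg hk]
  by_cases hkN : M.length < k
  · rw [if_pos hkN]
    simp only [Bool.false_eq_true, false_iff]
    rintro ⟨S, hS⟩
    have h3 := Finset.card_le_univ S
    rw [Fintype.card_fin, hS.card_eq] at h3
    exact absurd h3 (by simpa using hkN)
  rw [if_neg hkN]
  push Not at hkN
  have hN : 0 < M.length := by omega
  by_cases hh : m - z m < M.length
  · rw [if_pos hh]
    by_cases hE : E M < K2 M.length k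
    · rw [if_pos hE]
      simp only [Bool.false_eq_true, false_iff]
      rw [taskClq taskK2 M k hkN]
      rintro ⟨S, hS, _, h3⟩
      have h4 : ee (adM M) S ≤ ee (adM M) (Finset.range M.length) := by
        unfold ee
        exact Finset.card_le_card (Finset.filter_subset_filter _ (Finset.product_subset_product hS hS))
      have h5 := taskE M
      omega
    · rw [if_neg hE]
      push Not at hE
      have h6 := ee_lt (adM M) M.length hN
      have h7 := taskE M
      rw [hd _ (matX_valid M true _ m _ hN (by omega))]
      exact high_case z M k m (by omega) hkN (by omega) h2 hE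
  · rw [if_neg hh]
    push Not at hh
    have hB : k * (M.length - 1) - K2 M.length k ≤ M.length * M.length := by
      have h3 : k * (M.length - 1) ≤ M.length * M.length := Nat.mul_le_mul hkN (by omega)
      omega
    rw [hd _ (matX_valid M false _ m _ hN hB)]
    exact low_case z M k m (by omega) hkN h1 hh

/-- The main theorem. -/
theorem main (z t : ℕ → ℕ) (hz : ∀ m, z m ≤ m) (ht : UF t)
    (hdiv : ∀ k m, t k ≤ m → k ≤ z m ∧ k ≤ m - z m) (d : Inst → Bool) (hd : Poly d)
    (hdc : ∀ x, Valid x → (d x = true ↔ Old z x)) :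
    IsFpt (fun x : List (List Bool) × ℕ => x.2) HasClique := by
  refine fpt_clique hd ht fun x => ?_
  obtain ⟨M, k⟩ := x
  unfold G
  simp only [List.length_replicate]
  rw [taskZ z d hz hdc]
  have h := hdiv k (2 * M.length + t k) (by omega)
  exact alg_correct z d hdc M k _ (by omega) h.1 h.2

end Pool.Agent.Q324.LB
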