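import Pool.Agent.Q324.LB.Final

/-!
# Unanimity lobbying: quotas which are large only on a set of numbers with polynomial gaps
-/

set_option autoImplicit false

namespace Pool.Agent.Q324.LB

open Pool.Agent.NPC Pool.Agent.NPC.H633 Pool.Agent.H633R2 Pool.Agent.Q322

/-- the test for a suitable number of issues -/
def good (d : Inst → Bool) (N k B m : ℕ) : Bool :=
  decide (2 * N ≤ m) && (decide (k ≤ zval d (min m B)) && decide (k ≤ m - zval d (min m B)))

/-- the least suitable number of issues up to `B` -/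
def srch (d : Inst → Bool) (N k B : ℕ) : ℕ :=
  ((List.range (B + 1)).filter (good d N k B)).head?.getD 0

theorem srch_spec (d : Inst → Bool) (N k B : ℕ)
    (h : ∃ m ≤ B, 2 * N ≤ m ∧ k ≤ zval d m ∧ k ≤ m - zval d m) :
    2 * N ≤ srch d N k B ∧ k ≤ zval d (srch d N k B) ∧
      k ≤ srch d N k B - zval d (srch d N k B) := by
  obtain ⟨m, hm, h1, h2, h3⟩ := h
  have hmem : m ∈ (List.range (B + 1)).filter (good d N k B) := by
    rw [List.mem_filter]
    refine ⟨List.mem_range.2 (by omega), ?_⟩
    unfold good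
    rw [min_eq_left hm]
    simp [h1, h2, h3]
  obtain ⟨x, l, hx⟩ := List.exists_cons_of_ne_nil (List.ne_nil_of_mem hmem)
  have hx' : x ∈ (List.range (B + 1)).filter (good d N k B) := by rw [hx]; simp
  have e : srch d N k B = x := by
    unfold srch
    rw [hx]
    rfl
  rw [List.mem_filter, List.mem_range] at hx'
  obtain ⟨h4, h5⟩ := hx'
  unfold good at h5
  rw [min_eq_left (by omega : x ≤ B)] at h5
  simp only [Bool.and_eq_true, decide_eq_true_eq] at h5
  rw [e]
  exact h5

theorem srch_le (d : Inst → Bool) (N k B : ℕ) : srch d N k B ≤ B := by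
  unfold srch
  cases h : ((List.range (B + 1)).filter (good d N k B)) with
  | nil => simp
  | cons x l =>
    have hx' : x ∈ (List.range (B + 1)).filter (good d N k B) := by rw [h]; simp
    rw [List.mem_filter, List.mem_range] at hx'
    simp only [List.head?_cons, Option.getD_some]
    omega

theorem srch_poly {α : Type} [TEnc α] {d : Inst → Bool} (hd : Poly d) {N k B : α → ℕ}
    (hN : Poly N) (hk : Poly k) (hB : UPoly B) : Poly (fun a => srch d (N a) (k a) (B a)) := by
  unfold srch
  have hB' := hB.toPoly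
  have h1 : Poly (fun a => (List.range (B a + 1)).filter (good d (N a) (k a) (B a))) := by
    refine NPC.Poly.filter (l := fun a => List.range (B a + 1))
      (p := fun a m => good d (N a) (k a) (B a) m) (hB.add (UPoly.const 1)).range ?_
    unfold good
    have hz : Poly (fun y : α × ℕ => zval d (min y.2 (B y.1))) := by
      refine zval_poly hd (UPoly.of_le (n := fun y : α × ℕ => B y.1) (by fun_prop)
        (hB.comp (f := fun y : α × ℕ => y.1) (by fun_prop)) (fun y => min_le_right _ _))
    refine NPC.Poly.and (NPC.Poly.decide_le (by fun_prop) (by fun_prop)) ?_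
    exact NPC.Poly.and (NPC.Poly.decide_le (by fun_prop) hz)
      (NPC.Poly.decide_le (by fun_prop) (NPC.Poly.sub (by fun_prop) hz))
  exact Pool.Agent.NPC.Poly.optGetD (NPC.Poly.head? h1) (NPC.Poly.const 0)

/-- the bound -/
def BB (c N u : ℕ) : ℕ := u * (2 * N + 1) ^ c

theorem BB_u {α : Type} [TEnc α] (c : ℕ) {N u : α → ℕ} (hN : UPoly N) (hu : UPoly u) :
    UPoly (fun a => BB c (N a) (u a)) := by
  unfold BB
  refine hu.mul ?_
  have h := (((UPoly.const 2).mul hN).add (UPoly.const 1)).eval ((Polynomial.X : Polynomial ℕ) ^ c)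
  simpa using h

/-- the whole algorithm on padded inputs -/
def G2 (d : Inst → Bool) (c : ℕ) (y : (List (List Bool) × ℕ) × List Unit) : Bool :=
  alg d y.1.1 y.1.2 (srch d y.1.1.length y.1.2 (BB c y.1.1.length y.2.length))
    (zval d (srch d y.1.1.length y.1.2 (BB c y.1.1.length y.2.length)))

theorem G2_poly {d : Inst → Bool} (hd : Poly d) (c : ℕ) : Poly (G2 d c) := by
  have hB : UPoly (fun y : (List (List Bool) × ℕ) × List Unit =>
      BB c y.1.1.length y.2.length) :=
    BB_u c (UPoly.length (by fun_prop)) (UPoly.length (by fun_prop))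
  have hs : Poly (fun y : (List (List Bool) × ℕ) × List Unit =>
      srch d y.1.1.length y.1.2 (BB c y.1.1.length y.2.length)) :=
    srch_poly hd (by fun_prop) (by fun_prop) hB
  have hm : UPoly (fun y : (List (List Bool) × ℕ) × List Unit =>
      srch d y.1.1.length y.1.2 (BB c y.1.1.length y.2.length)) :=
    UPoly.of_le hs hB (fun y => srch_le _ _ _ _)
  exact alg_poly hd (by fun_prop) (by fun_prop) hm (zval_poly hd hm)

/-- **The main theorem**, for quotas which are large on a set of numbers with polynomial gaps. -/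
theorem main2 (z t : ℕ → ℕ) (c : ℕ) (hz : ∀ m, z m ≤ m) (ht : UF t)
    (hdiv : ∀ k n, ∃ m, n ≤ m ∧ m ≤ t k * (n + 1) ^ c ∧ k ≤ z m ∧ k ≤ m - z m)
    (d : Inst → Bool) (hd : Poly d) (hdc : ∀ x, Valid x → (d x = true ↔ Old z x)) :
    IsFpt (fun x : List (List Bool) × ℕ => x.2) HasClique := by
  refine ⟨fun x => G2 d c (x, List.replicate (t x.2) ()), ?_, ?_⟩
  · exact FptTime.poly_comp (g := G2 d c) (G2_poly hd c)
      ((FptTime.of_poly NPC.Poly.id).pair (UF.pad ht (NPC.Poly.snd NPC.Poly.id)))
  · rintro ⟨M, k⟩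
    unfold G2
    simp only [List.length_replicate]
    obtain ⟨m, h1, h2, h3, h4⟩ := hdiv k (2 * M.length)
    have hs := srch_spec d M.length k (BB c M.length (t k))
      ⟨m, h2, h1, by rwa [taskZ z d hz hdc], by rwa [taskZ z d hz hdc]⟩
    rw [taskZ z d hz hdc] at hs ⊢
    exact alg_correct z d hdc M k _ hs.1 hs.2.1 hs.2.2

end Pool.Agent.Q324.LB
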