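import Pool.Agent.H633R2.GraphDefs

/-!
# Blueprint: unanimity lobbying with a quota of issues (MP_8eff38_lc)

If `z' = min (z m) (m - z m)` tends to infinity (with a computable rate) and OLD(Unan, ψ_z) is solvable in
polynomial time then all problems in W[1] are fixed-parameter tractable.
-/

set_option autoImplicit false

namespace Pool.Agent.Q324.LB

open Pool.Agent.H633R2

/-- Instances `(X, k)`: a 0/1 matrix (a list of rows, the voters; columns are the issues) and a budget. -/
abbrev Inst := List (List Bool) × ℕ

/-- The number of issues: the length of the first row. -/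
def cols (X : List (List Bool)) : ℕ := (X.headD []).length

/-- The valid instances: at least one voter, rows of the same length, budget at most the number of voters. -/
def Valid (x : Inst) : Prop :=
  0 < x.1.length ∧ (∀ r ∈ x.1, r.length = cols x.1) ∧ x.2 ≤ x.1.length

/-- `OLD(Unan, ψ_z)`: is there a 0/1 matrix `Y` which differs from `X` in at most `k` rows and has at least
`z m` columns all of whose entries are `1`? -/
def Old (z : ℕ → ℕ) (x : Inst) : Prop :=
  ∃ Y : Fin x.1.length → Fin (cols x.1) → Bool,
    {i | ∃ j, Y i j ≠ entry x.1 i j}.ncard ≤ x.2 ∧ z (cols x.1) ≤ {j | ∀ i, Y i j = true}.ncard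

/-- Adjacency of the numbers `u`, `v` in the graph of the matrix `M`. -/
def adM (M : List (List Bool)) (u v : ℕ) : Bool :=
  !(decide (u = v)) && (entry M u v || entry M v u)

/-- zeros of the row `(v, w)` in the column of the vertex `u`: rows `v < w` adjacent: zero at `v` and `w`; if
`hi = false` also rows `v ≠ w` not adjacent (both orders): zero at `v` -/
def zer (a : ℕ → ℕ → Bool) (hi : Bool) (v w u : ℕ) : Bool :=
  (decide (v < w) && (a v w && (decide (u = v) || decide (u = w)))) ||
    (!hi && (!(decide (v = w)) && (!(a v w) && decide (u = v))))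

/-- entry of the matrix: `N` vertex columns, then `p` columns of ones, then columns of zeros -/
def cell (a : ℕ → ℕ → Bool) (hi : Bool) (N p v w u : ℕ) : Bool :=
  if u < N then !(zer a hi v w u) else decide (u < N + p)

/-- the matrix -/
def matX (M : List (List Bool)) (hi : Bool) (p m : ℕ) : List (List Bool) :=
  (List.range M.length).flatMap fun v => (List.range M.length).map fun w =>
    (List.range m).map fun u => cell (adM M) hi M.length p v w u

/-- number of edges inside `S` -/
def ee (a : ℕ → ℕ → Bool) (S : Finset ℕ) : ℕ :=
  ((S ×ˢ S).filter fun r => r.1 < r.2 ∧ a r.1 r.2 = true).card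

/-- number of edges -/
def E (M : List (List Bool)) : ℕ :=
  ((List.range M.length).flatMap fun v =>
    (List.range M.length).filter fun w => decide (v < w) && adM M v w).length

/-- `k choose 2` if `k ≤ N` -/
def K2 (N k : ℕ) : ℕ :=
  ((List.range N).flatMap fun v => (List.range N).filter fun w => decide (v < w) && decide (w < k)).length

/-- the value `z m`, found with the algorithm `d` -/
def zval (d : Inst → Bool) (m : ℕ) : ℕ :=
  ((List.range m).filter fun j => !(d ([(List.range m).map fun u => decide (u < j)], 0))).length

/-- the algorithm for clique, given `m` and `s = z m` -/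
def alg (d : Inst → Bool) (M : List (List Bool)) (k m s : ℕ) : Bool :=
  if k = 0 then true
  else if M.length < k then false
  else if m - s < M.length then
    (if E M < K2 M.length k then false
      else d (matX M true (s - (M.length - k)) m, E M - K2 M.length k))
  else d (matX M false (s - k) m, k * (M.length - 1) - K2 M.length k)

/-- (1) `Old` in terms of sets `T` of columns: the rows with a zero in `T` have to be changed. (Forward: `T` =
the columns of ones of `Y`. Backward: `Y` = all ones in the rows with a zero in `T`, `X` elsewhere.) -/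
def TaskOld : Prop := ∀ (ρ : Type) [DecidableEq ρ] (Rl : List ρ) (m : ℕ) (cl : ρ → ℕ → Bool)
  (z : ℕ → ℕ) (B : ℕ), Rl.Nodup → Rl ≠ [] →
  (Old z (Rl.map (fun r => (List.range m).map (cl r)), B) ↔
    ∃ T ⊆ Finset.range m, z m ≤ T.card ∧
      (Rl.toFinset.filter fun r => ∃ u ∈ T, cl r u = false).card ≤ B)

/-- (2) Columns of ones are free, columns of zeros are too expensive (`B < F.card`). Backward: `T ∪ {N..N+p-1}`;
forward: `T ∩ range N` has at least `c` elements, take a subset with `c` elements. -/
def TaskCols : Prop := ∀ (ρ : Type) [DecidableEq ρ] (F : Finset ρ) (g : ρ → ℕ → Bool) (N p c m B : ℕ),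
  N + p ≤ m → B < F.card →
  ((∃ T ⊆ Finset.range m, c + p ≤ T.card ∧
      (F.filter fun r => ∃ u ∈ T, (if u < N then !(g r u) else decide (u < N + p)) = false).card ≤ B) ↔
    ∃ T ⊆ Finset.range N, T.card = c ∧ (F.filter fun r => ∃ u ∈ T, g r u = true).card ≤ B)

/-- (3) the low case: each vertex column has exactly `N - 1` zeros, and the columns of adjacent vertices share
one of them -/
def TaskLow : Prop := ∀ (a : ℕ → ℕ → Bool) (N : ℕ) (T : Finset ℕ), (∀ u v, a u v = a v u) →
  T ⊆ Finset.range N →
  (((Finset.range N) ×ˢ (Finset.range N)).filter fun r => ∃ u ∈ T, zer a false r.1 r.2 u = true).card +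
    ee a T = T.card * (N - 1)

/-- (4) the high case: edges which meet `T` and edges in the complement of `T` -/
def TaskHigh : Prop := ∀ (a : ℕ → ℕ → Bool) (N : ℕ) (T : Finset ℕ), T ⊆ Finset.range N →
  (((Finset.range N) ×ˢ (Finset.range N)).filter fun r => ∃ u ∈ T, zer a true r.1 r.2 u = true).card +
    ee a (Finset.range N \ T) = ee a (Finset.range N)

/-- (5) cliques -/
def TaskClq : Prop := ∀ (M : List (List Bool)) (k : ℕ), k ≤ M.length →
  (HasClique (M, k) ↔ ∃ S ⊆ Finset.range M.length, S.card = k ∧ K2 M.length k ≤ ee (adM M) S)

/-- (6) list and finset versions of the number of edges -/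
def TaskE : Prop := ∀ M : List (List Bool), E M = ee (adM M) (Finset.range M.length)

/-- (7) the value of `z` is found: with budget `0` and `j` columns of ones the answer is yes iff `z m ≤ j`
(use TaskOld with one row, or directly) -/
def TaskZ : Prop := ∀ (z : ℕ → ℕ) (d : Inst → Bool), (∀ m, z m ≤ m) →
  (∀ x, Valid x → (d x = true ↔ Old z x)) → ∀ m, zval d m = z m

/-- (8) `K2 N k = k choose 2` -/
def TaskK2 : Prop := ∀ N k : ℕ, k ≤ N → K2 N k = k.choose 2

end Pool.Agent.Q324.LB
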