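import Pool.Agent.H633R2.FptPad
import Pool.Agent.H671R2.PolyAuto
import Pool.Agent.Q322.Mat
import Pool.Agent.Q324.LB.Stmts

/-!
# Unanimity lobbying: the polynomial-time part of the reduction
-/

set_option autoImplicit false

namespace Pool.Agent.Q324.LB

open Pool.Agent.NPC Pool.Agent.NPC.H633 Pool.Agent.H633R2 Pool.Agent.Q322

section

variable {α : Type} [TEnc α]

theorem adM_poly {M : α → List (List Bool)} {i j : α → ℕ} (hM : Poly M)
    (hi : Poly i) (hj : Poly j) : Poly (fun a => adM (M a) (i a) (j a)) :=
  adjB_poly hM hi hj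

theorem cell_poly {M : α → List (List Bool)} {hi : α → Bool} {p v w u : α → ℕ} (hM : Poly M)
    (hh : Poly hi) (hp : Poly p) (hv : Poly v) (hw : Poly w) (hu : Poly u) :
    Poly (fun a => cell (adM (M a)) (hi a) (M a).length (p a) (v a) (w a) (u a)) := by
  unfold cell zer
  have h1 := adM_poly hM hv hw
  fun_prop

theorem matX_poly {M : α → List (List Bool)} {hi : α → Bool} {p m : α → ℕ} (hM : Poly M)
    (hh : Poly hi) (hp : Poly p) (hm : UPoly m) :
    Poly (fun a => matX (M a) (hi a) (p a) (m a)) := by
  unfold matX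
  refine NPC.Poly.flatMap (l := fun a => List.range (M a).length)
    (F := fun a v => (List.range (M a).length).map fun w => (List.range (m a)).map fun u =>
      cell (adM (M a)) (hi a) (M a).length (p a) v w u) (UPoly.length hM).range ?_
  refine NPC.Poly.map (l := fun y : α × ℕ => List.range (M y.1).length)
    (F := fun y w => (List.range (m y.1)).map fun u =>
      cell (adM (M y.1)) (hi y.1) (M y.1).length (p y.1) y.2 w u)
    ((UPoly.length hM).comp (f := fun y : α × ℕ => y.1) (by fun_prop)).range ?_
  refine NPC.Poly.map (l := fun y : (α × ℕ) × ℕ => List.range (m y.1.1))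
    (F := fun y u => cell (adM (M y.1.1)) (hi y.1.1) (M y.1.1).length (p y.1.1) y.1.2 y.2 u)
    (hm.comp (f := fun y : (α × ℕ) × ℕ => y.1.1) (by fun_prop)).range ?_
  exact cell_poly (α := ((α × ℕ) × ℕ) × ℕ) (M := fun y => M y.1.1.1) (hi := fun y => hi y.1.1.1)
    (p := fun y => p y.1.1.1) (v := fun y => y.1.1.2) (w := fun y => y.1.2) (u := fun y => y.2)
    (by fun_prop) (by fun_prop) (by fun_prop) (by fun_prop) (by fun_prop) (by fun_prop)

theorem pairs_poly {N : α → ℕ} {c : α → ℕ → ℕ → Bool} (hN : UPoly N)
    (hc : Poly (fun y : (α × ℕ) × ℕ => c y.1.1 y.1.2 y.2)) :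
    Poly (fun a => ((List.range (N a)).flatMap fun v =>
      (List.range (N a)).filter fun w => decide (v < w) && c a v w).length) := by
  refine NPC.Poly.length ?_
  refine NPC.Poly.flatMap (l := fun a => List.range (N a))
    (F := fun a v => (List.range (N a)).filter fun w => decide (v < w) && c a v w) hN.range ?_
  refine NPC.Poly.filter (l := fun y : α × ℕ => List.range (N y.1))
    (p := fun y w => decide (y.2 < w) && c y.1 y.2 w)
    (hN.comp (f := fun y : α × ℕ => y.1) (by fun_prop)).range ?_
  refine NPC.Poly.and ?_ hc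
  exact NPC.Poly.decide_lt (by fun_prop) (by fun_prop)

theorem E_poly {M : α → List (List Bool)} (hM : Poly M) : Poly (fun a => E (M a)) := by
  unfold E
  exact pairs_poly (c := fun a v w => adM (M a) v w) (UPoly.length hM)
    (adM_poly (α := (α × ℕ) × ℕ) (M := fun y => M y.1.1) (i := fun y => y.1.2) (j := fun y => y.2)
      (by fun_prop) (by fun_prop) (by fun_prop))

theorem K2_poly {N k : α → ℕ} (hN : UPoly N) (hk : Poly k) : Poly (fun a => K2 (N a) (k a)) := by
  unfold K2
  exact pairs_poly (c := fun a _ w => decide (w < k a)) hN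
    (NPC.Poly.decide_lt (by fun_prop) (by fun_prop))

theorem zval_poly {d : Inst → Bool} (hd : Poly d) {m : α → ℕ} (hm : UPoly m) :
    Poly (fun a => zval d (m a)) := by
  unfold zval
  refine NPC.Poly.length ?_
  refine NPC.Poly.filter (l := fun a => List.range (m a))
    (p := fun a j => !(d ([(List.range (m a)).map fun u => decide (u < j)], 0))) hm.range ?_
  refine NPC.Poly.not ?_
  refine NPC.Poly.comp (g := d)
    (f := fun y : α × ℕ => ([(List.range (m y.1)).map fun u => decide (u < y.2)], 0)) hd ?_
  have h1 : Poly (fun y : α × ℕ => (List.range (m y.1)).map fun u => decide (u < y.2)) :=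
    NPC.Poly.map (l := fun y : α × ℕ => List.range (m y.1)) (F := fun y u => decide (u < y.2))
      (hm.comp (f := fun y : α × ℕ => y.1) (by fun_prop)).range
      (NPC.Poly.decide_lt (by fun_prop) (by fun_prop))
  fun_prop

theorem alg_poly {d : Inst → Bool} (hd : Poly d) {M : α → List (List Bool)} {k m s : α → ℕ}
    (hM : Poly M) (hk : Poly k) (hm : UPoly m) (hs : Poly s) :
    Poly (fun a => alg d (M a) (k a) (m a) (s a)) := by
  unfold alg
  have hm' := hm.toPoly
  have hE := E_poly hM
  have hK := K2_poly (UPoly.length hM) hk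
  have h1 : Poly (fun a => d (matX (M a) true (s a - ((M a).length - k a)) (m a),
      E (M a) - K2 (M a).length (k a))) :=
    NPC.Poly.comp (g := d) hd (NPC.Poly.pair (matX_poly hM (NPC.Poly.const true) (by fun_prop) hm)
      (by fun_prop))
  have h2 : Poly (fun a => d (matX (M a) false (s a - k a) (m a),
      k a * ((M a).length - 1) - K2 (M a).length (k a))) :=
    NPC.Poly.comp (g := d) hd (NPC.Poly.pair (matX_poly hM (NPC.Poly.const false) (by fun_prop) hm)
      (by fun_prop))
  refine NPC.Poly.ite (NPC.Poly.decide_eq hk (NPC.Poly.const 0)) (NPC.Poly.const true) ?_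
  refine NPC.Poly.ite (NPC.Poly.decide_lt (by fun_prop) hk) (NPC.Poly.const false) ?_
  refine NPC.Poly.ite (NPC.Poly.decide_lt (by fun_prop) (by fun_prop)) ?_ h2
  exact NPC.Poly.ite (NPC.Poly.decide_lt hE hK) (NPC.Poly.const false) h1

end

/-- the whole algorithm on padded inputs -/
def G (d : Inst → Bool) (y : (List (List Bool) × ℕ) × List Unit) : Bool :=
  alg d y.1.1 y.1.2 (2 * y.1.1.length + y.2.length) (zval d (2 * y.1.1.length + y.2.length))

theorem G_poly {d : Inst → Bool} (hd : Poly d) : Poly (G d) := by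
  have hm : UPoly (fun y : (List (List Bool) × ℕ) × List Unit =>
      2 * y.1.1.length + y.2.length) :=
    ((UPoly.const 2).mul (UPoly.length (by fun_prop))).add (UPoly.length (by fun_prop))
  exact alg_poly hd (by fun_prop) (by fun_prop) hm (zval_poly hd hm)

/-- The clique problem is decided in fpt time. -/
theorem fpt_clique {d : Inst → Bool} (hd : Poly d) {t : ℕ → ℕ} (ht : UF t)
    (h : ∀ x : List (List Bool) × ℕ, G d (x, List.replicate (t x.2) ()) = true ↔ HasClique x) :
    IsFpt (fun x : List (List Bool) × ℕ => x.2) HasClique := by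
  refine ⟨fun x => G d (x, List.replicate (t x.2) ()), ?_, h⟩
  exact FptTime.poly_comp (g := G d) (G_poly hd)
    ((FptTime.of_poly NPC.Poly.id).pair (UF.pad ht (NPC.Poly.snd NPC.Poly.id)))

end Pool.Agent.Q324.LB
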